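import Pool.Agent.P.MP_c0e71b_lc.Main

namespace Pool.Agent.Results.MP_c0e71b_lc.NoPiThree

/-- `H` is a `Π⁰₃` set: it is defined by `∀ ∃ ∀` over a computable relation. -/
def IsPi03 (H : Set ℕ) : Prop :=
  ∃ R : ℕ × ℕ × ℕ × ℕ → Prop, ComputablePred R ∧ ∀ x, x ∈ H ↔ ∀ u, ∃ v, ∀ w, R (x, u, v, w)

/-- All sums of one, two or three distinct elements of `H`. -/
def FS3 (H : Set ℕ) : Set ℕ :=
  {n | ∃ s : Finset ℕ, (∀ x ∈ s, x ∈ H) ∧ 1 ≤ s.card ∧ s.card ≤ 3 ∧ n = ∑ x ∈ s, x}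

open Pool.Agent.P.MP_c0e71b_lc in
theorem result : ∃ c : ℕ → ℕ, Computable c ∧ (∀ n, c n < 8) ∧
    ∀ H : Set ℕ, (∀ x ∈ H, 0 < x) → H.Infinite → IsPi03 H →
      ¬ ∃ i, ∀ n ∈ FS3 H, c n = i := by
  obtain ⟨P, hP, hm, hu⟩ := exists_universal
  refine ⟨col P, c_col hP, col_lt P, ?_⟩
  rintro H h0 hi ⟨R, hR, hH⟩ ⟨i, hc⟩
  obtain ⟨e, he⟩ := hu R hR
  refine main hm h0 hi (e := e) (i := i) (fun x => ?_) (fun x hx => ?_)
    (fun x hx y hy h => ?_) (fun x hx y hy z hz h h' => ?_)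
  · rw [hH]
    exact forall_congr' fun u => exists_congr fun v => he x u v
  · exact hc _ ⟨{x}, by simpa using hx, by simp, by simp, by simp⟩
  · refine hc _ ⟨{x, y}, by simp [hx, hy], ?_, ?_, ?_⟩
    · rw [Finset.card_pair h.ne]; omega
    · rw [Finset.card_pair h.ne]; omega
    · rw [Finset.sum_pair h.ne]
  · have h1 : x ∉ ({y, z} : Finset ℕ) := by simp; omega
    refine hc _ ⟨{x, y, z}, by simp [hx, hy, hz], ?_, Finset.card_le_three, ?_⟩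
    · exact Finset.card_pos.2 ⟨x, by simp⟩
    · rw [Finset.sum_insert h1, Finset.sum_pair h'.ne, add_assoc]

end Pool.Agent.Results.MP_c0e71b_lc.NoPiThree
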